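import Pool.Agent.Helper9.SUB.RED2

/-!
Project SUB, row GRD: a polynomial with many zeros of high order on a grid vanishes.
-/

set_option autoImplicit false

namespace Pool.Agent.Helper9.SUB

open Pool.Agent.Helper70.SUB Finset

/-- the one variable case: the coefficients are combinations of the values of the derivatives -/
theorem uni (a t k : ℕ) (_hk : k < a * (t + 1)) : ∃ c : Fin (t + 1) × Fin a → ℚ,
    ∀ j, j < a * (t + 1) →
      ∑ p, (((j.choose (p.1 : ℕ) : ℕ) : ℚ) * (((p.2 : ℕ) : ℚ)) ^ (j - (p.1 : ℕ))) * c p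
        = if j = k then 1 else 0 := by
  classical
  let Λ : Polynomial.degreeLT ℚ (a * (t + 1)) →ₗ[ℚ] (Fin (t + 1) × Fin a → ℚ) :=
    LinearMap.pi (fun p => (Polynomial.leval ((p.2 : ℕ) : ℚ)) ∘ₗ
      (Polynomial.hasseDeriv (p.1 : ℕ)) ∘ₗ (Submodule.subtype _))
  have hΛ : ∀ (f : Polynomial.degreeLT ℚ (a * (t + 1))) p,
      Λ f p = (Polynomial.hasseDeriv (p.1 : ℕ) (f : Polynomial ℚ)).eval ((p.2 : ℕ) : ℚ) :=
    fun f p => rfl
  have hker : LinearMap.ker Λ = ⊥ := by
    rw [LinearMap.ker_eq_bot']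
    intro f hf
    have hdvd : ∀ u ∈ Finset.range a,
        (Polynomial.X - Polynomial.C ((u : ℕ) : ℚ)) ^ (t + 1) ∣ (f : Polynomial ℚ) := by
      intro u hu
      rw [Polynomial.X_sub_C_pow_dvd_iff, Polynomial.X_pow_dvd_iff]
      intro d hd
      have := congrFun hf (⟨d, hd⟩, ⟨u, Finset.mem_range.mp hu⟩)
      rw [hΛ] at this
      rw [← Polynomial.taylor_apply, Polynomial.taylor_coeff]
      exact this
    have hcop : ((Finset.range a : Finset ℕ) : Set ℕ).Pairwise
        (Function.onFun IsCoprime (fun u : ℕ =>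
          (Polynomial.X - Polynomial.C ((u : ℕ) : ℚ)) ^ (t + 1))) := by
      intro u _ v _ huv
      apply IsCoprime.pow
      apply Polynomial.isCoprime_X_sub_C_of_isUnit_sub
      rw [isUnit_iff_ne_zero, sub_ne_zero]
      exact_mod_cast huv
    have hprod := Finset.prod_dvd_of_coprime hcop hdvd
    have hmonic : (∏ u ∈ Finset.range a,
        (Polynomial.X - Polynomial.C ((u : ℕ) : ℚ)) ^ (t + 1)).Monic :=
      Polynomial.monic_prod_of_monic _ _ (fun u _ => (Polynomial.monic_X_sub_C _).pow _)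
    have hdeg : (∏ u ∈ Finset.range a,
        (Polynomial.X - Polynomial.C ((u : ℕ) : ℚ)) ^ (t + 1)).natDegree = a * (t + 1) := by
      rw [Polynomial.natDegree_prod_of_monic _ _
        (fun u _ => (Polynomial.monic_X_sub_C _).pow _)]
      rw [Finset.sum_congr rfl (fun u _ => by
        rw [Polynomial.natDegree_pow, Polynomial.natDegree_X_sub_C, mul_one]),
        Finset.sum_const, Finset.card_range, smul_eq_mul]
    have hz : (f : Polynomial ℚ) = 0 := by
      apply Polynomial.eq_zero_of_dvd_of_degree_lt hprod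
      rw [Polynomial.degree_eq_natDegree hmonic.ne_zero, hdeg]
      exact Polynomial.mem_degreeLT.mp f.2
    exact Subtype.ext hz
  obtain ⟨g, hg⟩ := LinearMap.exists_leftInverse_of_injective Λ hker
  let φ : (Fin (t + 1) × Fin a → ℚ) →ₗ[ℚ] ℚ :=
    (Polynomial.lcoeff ℚ k) ∘ₗ (Submodule.subtype _) ∘ₗ g
  refine ⟨fun p => φ (fun q => if p = q then 1 else 0), fun j hj => ?_⟩
  have hmem : (Polynomial.monomial j (1 : ℚ)) ∈ Polynomial.degreeLT ℚ (a * (t + 1)) := by
    rw [Polynomial.mem_degreeLT]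
    exact lt_of_le_of_lt (Polynomial.degree_monomial_le _ _) (by exact_mod_cast hj)
  have h1 : φ (Λ ⟨_, hmem⟩) = if j = k then 1 else 0 := by
    have : g (Λ ⟨_, hmem⟩) = ⟨_, hmem⟩ := LinearMap.congr_fun hg _
    change (Polynomial.lcoeff ℚ k) ((g (Λ ⟨_, hmem⟩) : _) : Polynomial ℚ) = _
    rw [this, Polynomial.lcoeff_apply, Polynomial.coeff_monomial]
  rw [← h1, LinearMap.pi_apply_eq_sum_univ φ (Λ ⟨_, hmem⟩)]
  apply Finset.sum_congr rfl
  intro p _
  rw [hΛ, smul_eq_mul]
  congr 1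
  change _ = Polynomial.eval ((p.2 : ℕ) : ℚ) (Polynomial.hasseDeriv (p.1 : ℕ)
    (Polynomial.monomial j (1 : ℚ)))
  rw [Polynomial.hasseDeriv_monomial, Polynomial.eval_monomial, mul_one]

theorem st_GRD (hHD : ST_HD) : ST_GRD := by
  classical
  intro σ _ _ F a t r hr ht hvan
  by_contra hF
  obtain ⟨K, hK⟩ := MvPolynomial.ne_zero_iff.mp hF
  have hdeg : ∀ J ∈ F.support, ∀ s, J s < a * (t s + 1) := by
    intro J hJ s
    refine lt_of_le_of_lt ?_ (lt_of_le_of_lt (hr s) (ht s))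
    exact (MvPolynomial.degreeOf_le_iff.mp le_rfl) J hJ
  have hKs : K ∈ F.support := MvPolynomial.mem_support_iff.mpr hK
  choose c hc using fun s => uni a (t s) (K s) (hdeg K hKs s)
  have hzero : ∑ p : (s : σ) → Fin (t s + 1) × Fin a, (∏ s, c s (p s)) *
      MvPolynomial.eval (fun s => (((p s).2 : ℕ) : ℚ))
        (hd (Finsupp.equivFunOnFinite.symm (fun s => ((p s).1 : ℕ))) F) = 0 := by
    apply Finset.sum_eq_zero
    intro p _
    rw [hvan (Finsupp.equivFunOnFinite.symm (fun s => ((p s).1 : ℕ)))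
      (fun s => Nat.lt_succ_iff.mp (p s).1.2) (fun s => ((p s).2 : ℕ)) (fun s => (p s).2.2),
      mul_zero]
  apply hK
  rw [← hzero]
  have hexp : ∀ p : (s : σ) → Fin (t s + 1) × Fin a,
      MvPolynomial.eval (fun s => (((p s).2 : ℕ) : ℚ))
        (hd (Finsupp.equivFunOnFinite.symm (fun s => ((p s).1 : ℕ))) F)
      = ∑ J ∈ F.support, F.coeff J * ∏ s, ((((J s).choose ((p s).1 : ℕ) : ℕ) : ℚ) *
          ((((p s).2 : ℕ) : ℚ)) ^ (J s - ((p s).1 : ℕ))) := by
    intro p
    conv_lhs => rw [F.as_sum]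
    rw [hd_sum, map_sum]
    apply Finset.sum_congr rfl
    intro J _
    rw [hd_monomial hHD, MvPolynomial.eval_monomial, Finsupp.prod_fintype _ _ (by intro i; simp),
      Finset.prod_mul_distrib]
    simp only [Finsupp.tsub_apply, Finsupp.equivFunOnFinite_symm_apply_apply]
    ring
  simp only [hexp, Finset.mul_sum]
  rw [Finset.sum_comm]
  have hJ : ∀ J ∈ F.support, ∑ p : (s : σ) → Fin (t s + 1) × Fin a, (∏ s, c s (p s)) *
      (F.coeff J * ∏ s, ((((J s).choose ((p s).1 : ℕ) : ℕ) : ℚ) *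
          ((((p s).2 : ℕ) : ℚ)) ^ (J s - ((p s).1 : ℕ)))) = if J = K then F.coeff J else 0 := by
    intro J hJ
    have e1 : ∀ p : (s : σ) → Fin (t s + 1) × Fin a, (∏ s, c s (p s)) *
      (F.coeff J * ∏ s, ((((J s).choose ((p s).1 : ℕ) : ℕ) : ℚ) *
          ((((p s).2 : ℕ) : ℚ)) ^ (J s - ((p s).1 : ℕ))))
        = F.coeff J * ∏ s, ((((J s).choose ((p s).1 : ℕ) : ℕ) : ℚ) *
          ((((p s).2 : ℕ) : ℚ)) ^ (J s - ((p s).1 : ℕ)) * c s (p s)) := by
      intro p
      simp only [Finset.prod_mul_distrib]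
      ring
    rw [Finset.sum_congr rfl (fun p _ => e1 p), ← Finset.mul_sum]
    have e2 := Finset.prod_univ_sum (fun s : σ => (Finset.univ : Finset (Fin (t s + 1) × Fin a)))
      (fun s q => ((((J s).choose (q.1 : ℕ) : ℕ) : ℚ) *
          (((q.2 : ℕ) : ℚ)) ^ (J s - (q.1 : ℕ)) * c s q))
    rw [Fintype.piFinset_univ] at e2
    rw [← e2, Finset.prod_congr rfl (fun s _ => hc s (J s) (hdeg J hJ s))]
    by_cases h : J = K
    · subst h
      simp
    · rw [if_neg h]
      have : ∃ s, J s ≠ K s := by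
        by_contra hcon
        push Not at hcon
        exact h (Finsupp.ext hcon)
      obtain ⟨s, hs⟩ := this
      rw [Finset.prod_eq_zero (Finset.mem_univ s) (if_neg hs), mul_zero]
  rw [Finset.sum_congr rfl hJ, Finset.sum_ite_eq' F.support K, if_pos hKs]

end Pool.Agent.Helper9.SUB
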