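import Pool.Agent.Helper70.SUB.SheetR

/-!
Project SUB, row RED2: reduction to one variable per block.
-/

set_option autoImplicit false

namespace Pool.Agent.Helper9.SUB

open Pool.Agent.Helper70.SUB Finset

/-- derivative of a monomial -/
theorem hd_monomial (hHD : ST_HD) {σ R : Type} [Fintype σ] [DecidableEq σ] [CommRing R]
    (J0 J : σ →₀ ℕ) (c : R) :
    hd J0 (MvPolynomial.monomial J c)
      = MvPolynomial.monomial (J - J0) ((∏ s, ((J s).choose (J0 s) : R)) * c) := by
  ext I
  rw [(hHD σ R).1, MvPolynomial.coeff_monomial, MvPolynomial.coeff_monomial]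
  by_cases h : J = I + J0
  · subst h
    simp
  · rw [if_neg h, mul_zero]
    split_ifs with h2
    · have : ∃ s, J s < J0 s := by
        by_contra hc
        push Not at hc
        apply h
        rw [← h2]
        ext s
        have := hc s
        simp
        omega
      obtain ⟨s, hs⟩ := this
      have h0 : (∏ s, ((J s).choose (J0 s) : R)) = 0 := by
        apply Finset.prod_eq_zero (Finset.mem_univ s)
        rw [Nat.choose_eq_zero_of_lt hs]
        simp
      rw [h0, zero_mul]
    · rfl

theorem hd_sum {σ R ι : Type} [CommRing R] (J : σ →₀ ℕ) (s : Finset ι)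
    (F : ι → MvPolynomial σ R) : hd J (∑ i ∈ s, F i) = ∑ i ∈ s, hd J (F i) := by
  simp [hd, map_sum, MvPolynomial.coeff_sum]

section

variable {m n : ℕ} (i0 i1 : Fin m → Fin n)

/-- the exponents at the positions different from `i0`, `i1` -/
noncomputable def rest (J : Fin m × Fin n →₀ ℕ) : Fin m × Fin n →₀ ℕ :=
  Finsupp.equivFunOnFinite.symm
    (fun s => if s.2 = i0 s.1 then 0 else if s.2 = i1 s.1 then 0 else J s)

/-- the exponents at the positions `i0` -/
noncomputable def top0 (J : Fin m × Fin n →₀ ℕ) : Fin m →₀ ℕ :=
  Finsupp.equivFunOnFinite.symm (fun h => J (h, i0 h))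

/-- exponents at the positions `i0` -/
noncomputable def put0 (K : Fin m →₀ ℕ) : Fin m × Fin n →₀ ℕ :=
  Finsupp.equivFunOnFinite.symm (fun s => if s.2 = i0 s.1 then K s.1 else 0)

theorem rest_apply (J : Fin m × Fin n →₀ ℕ) (s : Fin m × Fin n) :
    rest i0 i1 J s = if s.2 = i0 s.1 then 0 else if s.2 = i1 s.1 then 0 else J s := rfl

theorem top0_apply (J : Fin m × Fin n →₀ ℕ) (h : Fin m) : top0 i0 J h = J (h, i0 h) := rfl

theorem put0_apply (K : Fin m →₀ ℕ) (s : Fin m × Fin n) :
    put0 i0 K s = if s.2 = i0 s.1 then K s.1 else 0 := rfl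

/-- the substitution -/
noncomputable def sub (l : Fin m → Fin n → ℤ) : MvPolynomial (Fin m × Fin n) ℚ →ₐ[ℚ]
    MvPolynomial (Fin m × Fin n) ℚ :=
  MvPolynomial.aeval (fun s => if s.2 = i0 s.1 then
      MvPolynomial.C (-(l s.1 (i1 s.1) : ℚ) / l s.1 (i0 s.1)) +
        ∑ i, (if i = i0 s.1 then 0 else if i = i1 s.1 then 0 else
          MvPolynomial.C (-(l s.1 i : ℚ) / l s.1 (i0 s.1)) * MvPolynomial.X (s.1, i))
    else if s.2 = i1 s.1 then 1 else MvPolynomial.X s)

theorem sub_monomial (l : Fin m → Fin n → ℤ) (e I : Fin m × Fin n →₀ ℕ) (c : ℚ)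
    (hI : rest i0 i1 I ≤ e → rest i0 i1 I = e) :
    (sub i0 i1 l (MvPolynomial.monomial I c)).coeff e
      = if rest i0 i1 I = e then
          c * ∏ h, (-(l h (i1 h) : ℚ) / l h (i0 h)) ^ (I (h, i0 h)) else 0 := by
  classical
  rw [sub, MvPolynomial.aeval_monomial, Finsupp.prod_fintype _ _ (by intro i; simp)]
  set g : Fin m × Fin n → MvPolynomial (Fin m × Fin n) ℚ := fun s => if s.2 = i0 s.1 then
      MvPolynomial.C (-(l s.1 (i1 s.1) : ℚ) / l s.1 (i0 s.1)) +
        ∑ i, (if i = i0 s.1 then 0 else if i = i1 s.1 then 0 else
          MvPolynomial.C (-(l s.1 i : ℚ) / l s.1 (i0 s.1)) * MvPolynomial.X (s.1, i))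
    else if s.2 = i1 s.1 then 1 else MvPolynomial.X s with hg
  have hsplit : ∏ s, g s ^ I s = (∏ s, (if s.2 = i0 s.1 then g s else 1) ^ I s) *
      MvPolynomial.monomial (rest i0 i1 I) 1 := by
    rw [MvPolynomial.monomial_eq, Finsupp.prod_fintype _ _ (by intro i; simp), map_one, one_mul,
      ← Finset.prod_mul_distrib]
    apply Finset.prod_congr rfl
    intro s _
    rw [rest_apply]
    by_cases h1 : s.2 = i0 s.1
    · simp [h1]
    · by_cases h2 : s.2 = i1 s.1
      · have hgs : g s = 1 := by
          simp only [hg, if_neg h1, if_pos h2]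
        simp only [if_neg h1, if_pos h2, one_pow, pow_zero, mul_one, hgs]
      · have hgs : g s = MvPolynomial.X s := by
          simp only [hg, if_neg h1, if_neg h2]
        simp only [if_neg h1, if_neg h2, one_pow, one_mul, hgs]
  rw [hsplit]
  set A := ∏ s, (if s.2 = i0 s.1 then g s else 1) ^ I s with hA
  rw [show (algebraMap ℚ (MvPolynomial (Fin m × Fin n) ℚ)) c = MvPolynomial.C c from rfl,
    MvPolynomial.coeff_C_mul, MvPolynomial.coeff_mul_monomial', mul_one]
  by_cases hle : rest i0 i1 I ≤ e
  · have heq := hI hle
    rw [if_pos hle, if_pos heq, heq, tsub_self]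
    congr 1
    rw [← MvPolynomial.constantCoeff_eq, hA, map_prod, Fintype.prod_prod_type]
    apply Finset.prod_congr rfl
    intro h _
    rw [Finset.prod_eq_single (i0 h)]
    · rw [map_pow, if_pos rfl]
      congr 1
      rw [hg]
      simp only [if_true, map_add, map_sum, MvPolynomial.constantCoeff_C]
      rw [Finset.sum_eq_zero, add_zero]
      intro i _
      split_ifs <;> simp
    · intro i _ hi
      simp [hi]
    · intro hh
      exact absurd (Finset.mem_univ _) hh
  · have hne : rest i0 i1 I ≠ e := by
      rintro rfl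
      exact hle le_rfl
    rw [if_neg hle, if_neg hne, mul_zero]

end

theorem st_RED2 (hHD : ST_HD) : ST_RED2 := by
  classical
  intro m n r P l i0 i1 θ hP hMH hi01 hl hvan
  -- a minimal exponent vector
  obtain ⟨Je, hJe, hmin⟩ : ∃ Je ∈ P.support, ∀ J ∈ P.support,
      rest i0 i1 J ≤ rest i0 i1 Je → rest i0 i1 J = rest i0 i1 Je := by
    have hne : (P.support.image (rest i0 i1)).Nonempty := by
      rw [Finset.image_nonempty]
      exact MvPolynomial.support_nonempty.mpr hP
    obtain ⟨e, he, hmin⟩ := (P.support.image (rest i0 i1)).exists_minimal hne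
    obtain ⟨Je, hJe, rfl⟩ := Finset.mem_image.mp he
    refine ⟨Je, hJe, fun J hJ hle => ?_⟩
    exact le_antisymm hle (hmin (Finset.mem_image_of_mem _ hJ) hle)
  set e := rest i0 i1 Je with he
  -- a member of the support with rest `e` is determined by its exponents at `i0`
  have hinj : ∀ J ∈ P.support, ∀ J' ∈ P.support, rest i0 i1 J = rest i0 i1 J' →
      top0 i0 J = top0 i0 J' → J = J' := by
    intro J hJ J' hJ' hr ht
    have hother : ∀ h i, i ≠ i1 h → J (h, i) = J' (h, i) := by
      intro h i hi
      by_cases h0 : i = i0 h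
      · subst h0
        exact DFunLike.congr_fun ht h
      · have := DFunLike.congr_fun hr (h, i)
        rw [rest_apply, rest_apply] at this
        simpa [h0, hi] using this
    ext ⟨h, i⟩
    by_cases hi : i = i1 h
    · subst hi
      have h1 := hMH J (MvPolynomial.mem_support_iff.mp hJ) h
      have h2 := hMH J' (MvPolynomial.mem_support_iff.mp hJ') h
      rw [← Finset.add_sum_erase _ _ (Finset.mem_univ (i1 h))] at h1 h2
      have h3 : ∑ i ∈ Finset.univ.erase (i1 h), J (h, i)
          = ∑ i ∈ Finset.univ.erase (i1 h), J' (h, i) := by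
        apply Finset.sum_congr rfl
        intro i hi
        exact hother h i (Finset.ne_of_mem_erase hi)
      omega
    · exact hother h i hi
  set T := P.support.filter (fun J => rest i0 i1 J = e) with hT
  set f : MvPolynomial (Fin m) ℤ := ∑ J ∈ T, MvPolynomial.monomial (top0 i0 J) (P.coeff J) with hf
  have hcoeff : ∀ J ∈ T, f.coeff (top0 i0 J) = P.coeff J := by
    intro J hJ
    rw [hf, MvPolynomial.coeff_sum, Finset.sum_eq_single J]
    · rw [MvPolynomial.coeff_monomial, if_pos rfl]
    · intro J' hJ' hne
      rw [MvPolynomial.coeff_monomial, if_neg]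
      intro hc
      apply hne
      have h1 := (Finset.mem_filter.mp hJ)
      have h2 := (Finset.mem_filter.mp hJ')
      exact hinj J' h2.1 J h1.1 (h2.2.trans h1.2.symm) hc
    · intro hh
      exact absurd hJ hh
  have hsupp : ∀ K, f.coeff K ≠ 0 → ∃ J ∈ T, top0 i0 J = K := by
    intro K hK
    by_contra hc
    push Not at hc
    apply hK
    rw [hf, MvPolynomial.coeff_sum]
    apply Finset.sum_eq_zero
    intro J hJ
    rw [MvPolynomial.coeff_monomial, if_neg (hc J hJ)]
  have hJeT : Je ∈ T := Finset.mem_filter.mpr ⟨hJe, rfl⟩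
  refine ⟨f, ?_, ?_, ?_, ?_⟩
  · intro h0
    have := hcoeff Je hJeT
    rw [h0, MvPolynomial.coeff_zero] at this
    exact (MvPolynomial.mem_support_iff.mp hJe) this.symm
  · intro h
    rw [MvPolynomial.degreeOf_le_iff]
    intro K hK
    obtain ⟨J, hJ, rfl⟩ := hsupp K (MvPolynomial.mem_support_iff.mp hK)
    rw [top0_apply, ← hMH J (MvPolynomial.mem_support_iff.mp (Finset.mem_filter.mp hJ).1) h]
    exact Finset.single_le_sum (f := fun i => J (h, i)) (fun _ _ => Nat.zero_le _)
      (Finset.mem_univ _)
  · intro K hK
    obtain ⟨J, hJ, rfl⟩ := hsupp K hK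
    exact ⟨J, hcoeff J hJ⟩
  · intro K hK
    by_contra hlt
    push Not at hlt
    apply hK
    -- the hypothesis for the derivative with exponents `K` at `i0`
    set J0 := put0 (n := n) i0 K with hJ0
    have hw : ∑ hi : Fin m × Fin n, (J0 hi : ℝ) / r hi.1 < θ := by
      refine lt_of_eq_of_lt ?_ hlt
      rw [Fintype.sum_prod_type]
      apply Finset.sum_congr rfl
      intro h _
      rw [Finset.sum_eq_single (i0 h)]
      · rw [hJ0, put0_apply]
        simp
      · intro i _ hi
        rw [hJ0, put0_apply]
        simp [hi]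
      · intro hh
        exact absurd (Finset.mem_univ _) hh
    have hzero : sub i0 i1 l (toQ (hd J0 P)) = 0 := by
      apply MvPolynomial.funext
      intro τ
      rw [map_zero]
      set x : Fin m → Fin n → ℚ := fun h i => if i = i0 h then
          -(l h (i1 h) : ℚ) / l h (i0 h) +
            ∑ i', (if i' = i0 h then 0 else if i' = i1 h then 0 else
              (-(l h i' : ℚ) / l h (i0 h)) * τ (h, i'))
        else if i = i1 h then 1 else τ (h, i) with hx
      have hlx : ∀ h, ∑ i, (l h i : ℚ) * x h i = 0 := by
        intro h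
        have hl0 : (l h (i0 h) : ℚ) ≠ 0 := by exact_mod_cast hl h
        have hne : i1 h ≠ i0 h := (hi01 h).symm
        have hmem : i1 h ∈ Finset.univ.erase (i0 h) := by simp [hne]
        rw [← Finset.add_sum_erase _ _ (Finset.mem_univ (i0 h)), ← Finset.add_sum_erase _ _ hmem]
        have e0 : x h (i0 h) = -(l h (i1 h) : ℚ) / l h (i0 h) +
            ∑ i' ∈ (Finset.univ.erase (i0 h)).erase (i1 h),
              (-(l h i' : ℚ) / l h (i0 h)) * τ (h, i') := by
          rw [hx]
          simp only [if_true]
          congr 1
          rw [← Finset.sum_subset (Finset.subset_univ ((Finset.univ.erase (i0 h)).erase (i1 h)))]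
          · apply Finset.sum_congr rfl
            intro i hi
            simp only [Finset.mem_erase, Finset.mem_univ, and_true] at hi
            simp [hi.1, hi.2]
          · intro i _ hi
            simp only [Finset.mem_erase, Finset.mem_univ, and_true, not_and_or, not_not] at hi
            rcases hi with hi | hi
            · by_cases h0 : i = i0 h
              · simp [h0]
              · simp [hi]
            · simp [hi]
        have e1 : x h (i1 h) = 1 := by
          rw [hx]
          simp [hne]
        have e2 : ∑ i ∈ (Finset.univ.erase (i0 h)).erase (i1 h), (l h i : ℚ) * x h i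
            = ∑ i ∈ (Finset.univ.erase (i0 h)).erase (i1 h), (l h i : ℚ) * τ (h, i) := by
          apply Finset.sum_congr rfl
          intro i hi
          simp only [Finset.mem_erase, Finset.mem_univ, and_true] at hi
          rw [hx]
          simp [hi.1, hi.2]
        rw [e0, e1, e2, mul_add, Finset.mul_sum]
        have e3 : ∀ i ∈ (Finset.univ.erase (i0 h)).erase (i1 h),
            (l h (i0 h) : ℚ) * ((-(l h i : ℚ) / l h (i0 h)) * τ (h, i))
              = -((l h i : ℚ) * τ (h, i)) := by
          intro i _
          field_simp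
        rw [Finset.sum_congr rfl e3, Finset.sum_neg_distrib]
        field_simp
        ring
      have hv := hvan J0 hw x hlx
      have hcomp : MvPolynomial.eval τ (sub i0 i1 l (toQ (hd J0 P)))
          = MvPolynomial.eval (bl x) (toQ (hd J0 P)) := by
        have : (MvPolynomial.eval τ).comp (sub i0 i1 l).toRingHom
            = (MvPolynomial.eval (bl x) : MvPolynomial (Fin m × Fin n) ℚ →+* ℚ) := by
          apply MvPolynomial.ringHom_ext
          · intro c
            simp
          · rintro ⟨h, i⟩
            simp only [sub, AlgHom.toRingHom_eq_coe, RingHom.coe_comp, RingHom.coe_coe,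
              Function.comp_apply, MvPolynomial.aeval_X, MvPolynomial.eval_X, bl]
            rw [hx]
            by_cases h0 : i = i0 h
            · simp only [h0, if_true, map_add, map_sum, MvPolynomial.eval_C]
              congr 1
              apply Finset.sum_congr rfl
              intro i' _
              by_cases h1 : i' = i0 h
              · simp [h1]
              · by_cases h2 : i' = i1 h
                · simp [h2]
                · simp [h1, h2]
            · by_cases h1 : i = i1 h
              · simp [h1, (hi01 h).symm]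
              · simp [h0, h1]
        exact DFunLike.congr_fun this (toQ (hd J0 P))
      rw [hcomp, hv]
    have hsubc := congrArg (MvPolynomial.coeff e) hzero
    rw [MvPolynomial.coeff_zero] at hsubc
    -- expand `P`
    have hPsum : P = ∑ J ∈ P.support, MvPolynomial.monomial J (P.coeff J) :=
      P.as_sum
    have hterm : ∀ J ∈ P.support,
        (sub i0 i1 l (toQ (hd J0 (MvPolynomial.monomial J (P.coeff J))))).coeff e
          = if rest i0 i1 J = e then
              MvPolynomial.eval (fun h => -(l h (i1 h) : ℚ) / l h (i0 h))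
                (hd K (toQ (MvPolynomial.monomial (top0 i0 J) (P.coeff J)))) else 0 := by
      intro J hJ
      have hrest : rest i0 i1 (J - J0) = rest i0 i1 J := by
        ext s
        rw [rest_apply, rest_apply, hJ0]
        by_cases h0 : s.2 = i0 s.1
        · simp [h0]
        · simp [h0, put0_apply]
      rw [hd_monomial hHD, toQ, MvPolynomial.map_monomial,
        sub_monomial i0 i1 l e (J - J0) _ (by rw [hrest]; exact hmin J hJ), hrest]
      by_cases hr : rest i0 i1 J = e
      · rw [if_pos hr, if_pos hr, toQ, MvPolynomial.map_monomial, hd_monomial hHD,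
          MvPolynomial.eval_monomial, Finsupp.prod_fintype _ _ (by intro i; simp)]
        have hprod : ∏ s, ((J s).choose (J0 s) : ℤ) = ∏ h, (((top0 i0 J) h).choose (K h) : ℤ) := by
          rw [Fintype.prod_prod_type]
          apply Finset.prod_congr rfl
          intro h _
          rw [Finset.prod_eq_single (i0 h)]
          · rw [hJ0, put0_apply, top0_apply]
            simp
          · intro i _ hi
            rw [hJ0, put0_apply]
            simp [hi]
          · intro hh
            exact absurd (Finset.mem_univ _) hh
        rw [hprod]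
        have hx2 : ∀ h, (J - J0) (h, i0 h) = (top0 i0 J - K) h := by
          intro h
          rw [Finsupp.tsub_apply, Finsupp.tsub_apply, top0_apply, hJ0, put0_apply]
          simp
        simp only [hx2, map_mul, map_prod, eq_intCast, Int.cast_natCast]
      · rw [if_neg hr, if_neg hr]
    have hkey : (sub i0 i1 l (toQ (hd J0 P))).coeff e
        = MvPolynomial.eval (fun h => -(l h (i1 h) : ℚ) / l h (i0 h)) (hd K (toQ f)) := by
      conv_lhs => rw [hPsum]
      rw [hd_sum, map_sum, map_sum, MvPolynomial.coeff_sum, Finset.sum_congr rfl hterm,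
        ← Finset.sum_filter, hf, map_sum, hd_sum, map_sum]
    rw [((hHD (Fin m) ℚ).2.2.2.2.1), ← hkey]
    exact hsubc

end Pool.Agent.Helper9.SUB
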